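import Pool.Agent.H922Z.NU.Defs
import Pool.Agent.H314.BK.B9
import Pool.Agent.H314.BK.C3

set_option autoImplicit false

open MeasureTheory Complex Metric Set Filter Topology
open scoped ContDiff

namespace Pool.Agent.H367Z.NU

open BK BK.JC3.C3x Pool.Agent.H922Z.NU

variable {n : ℕ}

theorem Lv_eq {Φ : En n → ℝ} (hΦ : ContDiff ℝ ∞ Φ) (x a : En n) :
    Lv Φ x a = (1 / 4) * (fderiv ℝ (fderiv ℝ Φ) x a a +
      fderiv ℝ (fderiv ℝ Φ) x (I • a) (I • a)) := by
  unfold Lv
  rw [H_eq hΦ, H_eq hΦ]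

theorem Lv_cont {Φ : En n → ℝ} (hΦ : ContDiff ℝ ∞ Φ) :
    Continuous (fun p : En n × En n => Lv Φ p.1 p.2) := by
  have h2 : Continuous (fderiv ℝ (fderiv ℝ Φ)) := (contDiff_fd hΦ).continuous_fderiv (by simp)
  have e : (fun p : En n × En n => Lv Φ p.1 p.2) = fun p : En n × En n =>
      (1 / 4) * (fderiv ℝ (fderiv ℝ Φ) p.1 p.2 p.2 +
        fderiv ℝ (fderiv ℝ Φ) p.1 (I • p.2) (I • p.2)) := funext fun p => Lv_eq hΦ p.1 p.2
  rw [e]
  have h3 : Continuous (fun p : En n × En n => fderiv ℝ (fderiv ℝ Φ) p.1) := h2.comp continuous_fst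
  have h4 : Continuous (fun p : En n × En n => (I • p.2 : En n)) := continuous_snd.const_smul I
  exact continuous_const.mul (((h3.clm_apply continuous_snd).clm_apply continuous_snd).add
    ((h3.clm_apply h4).clm_apply h4))

theorem Lv_smul {Φ : En n → ℝ} (hΦ : ContDiff ℝ ∞ Φ) (x a : En n) (c : ℝ) :
    Lv Φ x (c • a) = c ^ 2 * Lv Φ x a := by
  rw [Lv_eq hΦ, Lv_eq hΦ, smul_comm I c a]
  simp only [map_smul, smul_apply, smul_eq_mul]
  ring

theorem Lv_comp_loc {Φ : En n → ℝ} (hΦ : ContDiff ℝ ∞ Φ) {J : Set ℝ} (hJ : IsOpen J)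
    {χ χ1 χ2 : ℝ → ℝ} (h1 : ∀ t ∈ J, HasDerivAt χ (χ1 t) t)
    (h2 : ∀ t ∈ J, HasDerivAt χ1 (χ2 t) t) (x : En n) (hx : Φ x ∈ J) (a : En n) :
    Lv (fun y => χ (Φ y)) x a = χ1 (Φ x) * Lv Φ x a +
      (1 / 4) * χ2 (Φ x) * ((fderiv ℝ Φ x a) ^ 2 + (fderiv ℝ Φ x (I • a)) ^ 2) := by
  have hΦ1 : Differentiable ℝ Φ := hΦ.differentiable (by simp)
  have key : ∀ v : En n, fderiv ℝ (fun y => fderiv ℝ (fun z => χ (Φ z)) y v) x v =
      χ1 (Φ x) * fderiv ℝ (fun y => fderiv ℝ Φ y v) x v +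
        χ2 (Φ x) * (fderiv ℝ Φ x v) ^ 2 := by
    intro v
    have e1 : (fun y => fderiv ℝ (fun z => χ (Φ z)) y v) =ᶠ[𝓝 x]
        fun y => χ1 (Φ y) * fderiv ℝ Φ y v := by
      filter_upwards [hΦ.continuous.continuousAt.preimage_mem_nhds (hJ.mem_nhds hx)] with y hy
      have := ((h1 (Φ y) hy).comp_hasFDerivAt y (hΦ1 y).hasFDerivAt).fderiv
      change fderiv ℝ (χ ∘ Φ) y v = _
      rw [this]
      rfl
    rw [e1.fderiv_eq]
    have h2' : HasFDerivAt (fun y => χ1 (Φ y)) (χ2 (Φ x) • fderiv ℝ Φ x) x :=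
      (h2 (Φ x) hx).comp_hasFDerivAt x (hΦ1 x).hasFDerivAt
    have h3 := (h2'.mul (hasFD_apply hΦ x v)).fderiv
    have h4 : fderiv ℝ (fun y => χ1 (Φ y) * fderiv ℝ Φ y v) x = _ := h3
    rw [h4, H_eq hΦ]
    simp only [add_apply, smul_apply, smul_eq_mul,
      ContinuousLinearMap.comp_apply, ContinuousLinearMap.apply_apply]
    ring
  unfold Lv
  rw [key, key]
  ring

theorem unit_scale (w : En n) (hw : w ≠ 0) :
    ∃ (c : ℝ) (u : En n), 0 < c ∧ u ∈ sphere (0 : En n) 1 ∧ w = c • u := by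
  have h : 0 < ‖w‖ := norm_pos_iff.2 hw
  refine ⟨‖w‖, ‖w‖⁻¹ • w, h, ?_, ?_⟩
  · rw [mem_sphere_zero_iff_norm, norm_smul, norm_inv, norm_norm, inv_mul_cancel₀ h.ne']
  · rw [smul_smul, mul_inv_cancel₀ h.ne', one_smul]

theorem t2a : T2a := by
  intro n ρ hρ hK hd hL
  have hρ1 : Differentiable ℝ ρ := hρ.differentiable (by simp)
  set Q : En n × En n → ℝ := fun p => (fderiv ℝ ρ p.1 p.2) ^ 2 + (fderiv ℝ ρ p.1 (I • p.2)) ^ 2
    with hQ
  have hQc : Continuous Q := by
    have h3 : Continuous (fun p : En n × En n => fderiv ℝ ρ p.1) :=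
      (contDiff_fd hρ).continuous.comp continuous_fst
    have h4 : Continuous (fun p : En n × En n => (I • p.2 : En n)) := continuous_snd.const_smul I
    exact ((h3.clm_apply continuous_snd).pow 2).add ((h3.clm_apply h4).pow 2)
  have hQ0 : ∀ p, 0 ≤ Q p := fun p => by positivity
  have hZ : IsCompact {z | ρ z = 0} :=
    hK.of_isClosed_subset (isClosed_eq hρ.continuous continuous_const) (fun z hz => le_of_eq hz)
  have hC : IsCompact ({z | ρ z = 0} ×ˢ sphere (0 : En n) 1) := hZ.prod (isCompact_sphere _ _)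
  obtain ⟨m, hm⟩ := hC.elim_directed_cover
    (fun m : ℕ => {p : En n × En n | 0 < Lv ρ p.1 p.2 + (m : ℝ) / 4 * Q p})
    (fun m => isOpen_lt continuous_const ((Lv_cont hρ).add (continuous_const.mul hQc)))
    (by
      rintro ⟨z, w⟩ ⟨hz, hw⟩
      have hw0 : w ≠ 0 := by
        intro h
        simp [h] at hw
      rcases (hQ0 (z, w)).eq_or_lt with h | h
      · have h1 : fderiv ℝ ρ z w = 0 := by
          have : (fderiv ℝ ρ z w) ^ 2 + (fderiv ℝ ρ z (I • w)) ^ 2 = 0 := h.symm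
          nlinarith [sq_nonneg (fderiv ℝ ρ z w), sq_nonneg (fderiv ℝ ρ z (I • w))]
        have h2 : fderiv ℝ ρ z (I • w) = 0 := by
          have : (fderiv ℝ ρ z w) ^ 2 + (fderiv ℝ ρ z (I • w)) ^ 2 = 0 := h.symm
          nlinarith [sq_nonneg (fderiv ℝ ρ z w), sq_nonneg (fderiv ℝ ρ z (I • w))]
        refine mem_iUnion.2 ⟨0, ?_⟩
        have := hL z hz w hw0 h1 h2
        simpa using this
      · obtain ⟨m, hm⟩ := exists_nat_gt (4 * (-Lv ρ z w) / Q (z, w))
        refine mem_iUnion.2 ⟨m, ?_⟩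
        rw [div_lt_iff₀ h] at hm
        change 0 < Lv ρ z w + (m : ℝ) / 4 * Q (z, w)
        linarith)
    (Monotone.directed_le (f := fun m : ℕ =>
        {p : En n × En n | 0 < Lv ρ p.1 p.2 + (m : ℝ) / 4 * Q p}) (by
      intro a b hab p hp
      have h1 : (a : ℝ) ≤ b := by exact_mod_cast hab
      have h2 : (a : ℝ) / 4 * Q p ≤ (b : ℝ) / 4 * Q p :=
        mul_le_mul_of_nonneg_right (by linarith) (hQ0 p)
      change 0 < Lv ρ p.1 p.2 + (a : ℝ) / 4 * Q p at hp
      change 0 < Lv ρ p.1 p.2 + (b : ℝ) / 4 * Q p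
      linarith))
  set A : ℝ := (m : ℝ) + 1 with hA
  have hA0 : 0 < A := by positivity
  have h1 : ∀ t ∈ (univ : Set ℝ), HasDerivAt (fun t => Real.exp (A * t) - 1)
      ((fun t => A * Real.exp (A * t)) t) t := by
    intro t _
    have := (((hasDerivAt_id t).const_mul A).exp).sub_const 1
    simpa [mul_comm] using this
  have h2 : ∀ t ∈ (univ : Set ℝ), HasDerivAt (fun t => A * Real.exp (A * t))
      ((fun t => A * A * Real.exp (A * t)) t) t := by
    intro t _
    have := (((hasDerivAt_id t).const_mul A).exp).const_mul A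
    simpa [mul_comm, mul_assoc, mul_left_comm] using this
  have hz : ∀ z, Real.exp (A * ρ z) - 1 = 0 ↔ ρ z = 0 := by
    intro z
    rw [sub_eq_zero, Real.exp_eq_one_iff, mul_eq_zero]
    simp [hA0.ne']
  refine ⟨fun z => Real.exp (A * ρ z) - 1, ((contDiff_const.mul hρ).exp).sub contDiff_const,
    ?_, hz, ?_, ?_⟩
  · intro z
    rw [sub_neg, Real.exp_lt_one_iff]
    constructor
    · intro h
      by_contra h'
      push Not at h'
      have := mul_nonneg hA0.le h'
      linarith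
    · intro h
      exact mul_neg_of_pos_of_neg hA0 h
  · intro z hz0 h
    have hz1 := (hz z).1 hz0
    have h3 := ((h1 (ρ z) trivial).comp_hasFDerivAt z (hρ1 z).hasFDerivAt).fderiv
    have h4 : fderiv ℝ (fun z => Real.exp (A * ρ z) - 1) z =
        (A * Real.exp (A * ρ z)) • fderiv ℝ ρ z := h3
    rw [h4, smul_eq_zero] at h
    rcases h with h | h
    · exact (mul_pos hA0 (Real.exp_pos _)).ne' h
    · exact hd z hz1 h
  · intro z hz0 w hw
    have hz1 := (hz z).1 hz0
    obtain ⟨c, u, hc, hu, rfl⟩ := unit_scale w hw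
    rw [Lv_smul (((contDiff_const.mul hρ).exp).sub contDiff_const)]
    apply mul_pos (pow_pos hc 2)
    rw [Lv_comp_loc hρ isOpen_univ h1 h2 z trivial u, hz1]
    have h5 : 0 < Lv ρ z u + (m : ℝ) / 4 * Q (z, u) := hm (Set.mk_mem_prod hz1 hu)
    have h6 := hQ0 (z, u)
    have h7 : 0 < Lv ρ z u + A / 4 * Q (z, u) := by
      rw [hA]
      linarith
    have h8 := mul_pos hA0 h7
    simp only [mul_zero, Real.exp_zero, mul_one]
    change 0 < A * Lv ρ z u + 1 / 4 * (A * A) * Q (z, u)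
    linarith

theorem t2b : T2b := by
  intro n r hr hK hL W hW hKW
  set V : Set (En n) := {x | ∀ w ∈ sphere (0 : En n) 1, 0 < Lv r x w} with hV
  have hVo : IsOpen V := by
    rw [isOpen_iff_mem_nhds]
    intro x hx
    have := (isCompact_sphere (0 : En n) 1).eventually_forall_of_forall_eventually
      (x₀ := x) (P := fun x w => 0 < Lv r x w) (fun w hw =>
        (isOpen_lt continuous_const (Lv_cont hr)).mem_nhds (hx w hw))
    exact this
  have hVL : ∀ x ∈ V, ∀ a, 0 ≤ Lv r x a := by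
    intro x hx a
    by_cases ha : a = 0
    · have := Lv_smul hr x a 0
      rw [ha] at this ⊢
      simp at this
      exact this.ge
    · obtain ⟨c, u, hc, hu, rfl⟩ := unit_scale a ha
      rw [Lv_smul hr]
      exact (mul_pos (pow_pos hc 2) (hx u hu)).le
  have hW2 : IsOpen (W ∩ (V ∪ {x | r x < 0})) :=
    hW.inter (hVo.union (isOpen_lt hr.continuous continuous_const))
  have hKW2 : {z | r z ≤ 0} ⊆ W ∩ (V ∪ {x | r x < 0}) := by
    intro z hz
    refine ⟨hKW hz, ?_⟩
    rcases (show r z ≤ 0 from hz).eq_or_lt with h | h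
    · left
      intro w hw
      apply hL z h w
      intro h0
      simp [h0] at hw
    · exact Or.inr h
  obtain ⟨δ, hδ, hδW⟩ := hK.exists_cthickening_subset_open hW2 hKW2
  set L := cthickening δ {z | r z ≤ 0} with hLdef
  have hLc : IsCompact L := hK.cthickening
  set T := thickening δ {z | r z ≤ 0} with hT
  have hTo : IsOpen T := isOpen_thickening
  have hTL : T ⊆ L := thickening_subset_cthickening _ _
  have hKT : {z | r z ≤ 0} ⊆ T := self_subset_thickening hδ _
  obtain ⟨η, hη, hηS⟩ : ∃ η : ℝ, 0 < η ∧ ∀ x ∈ L \ T, η ≤ r x := by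
    have hS : IsCompact (L \ T) := hLc.diff hTo
    rcases (L \ T).eq_empty_or_nonempty with h | h
    · exact ⟨1, one_pos, by simp [h]⟩
    · obtain ⟨x, hx, hm⟩ := hS.exists_isMinOn h hr.continuous.continuousOn
      refine ⟨r x, ?_, fun y hy => hm hy⟩
      by_contra h0
      push Not at h0
      exact hx.2 (hKT h0)
  obtain ⟨C, hC, hCb⟩ := Lv_bound hr hLc
  set ε : ℝ := η ^ 2 / (C + 1) with hε
  have hε0 : 0 < ε := by positivity
  set Ω : Set (En n) := {x | x ∈ T ∧ r x < η} with hΩ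
  have hΩo : IsOpen Ω := hTo.inter (isOpen_lt hr.continuous continuous_const)
  have hs : ContDiffOn ℝ ∞ (fun y => ε * (η - r y)⁻¹) Ω :=
    contDiffOn_const.mul ((contDiffOn_const.sub hr.contDiffOn).inv
      (fun y hy => (sub_pos.2 hy.2).ne'))
  have hψ : ContDiffOn ℝ ∞ (fun y => ε * (η - r y)⁻¹ + JB9.we_q y) Ω :=
    hs.add JB9.we_q_smooth.contDiffOn
  have hq0 : ∀ y : En n, 0 ≤ JB9.we_q y := fun y =>
    Finset.sum_nonneg fun j _ => by positivity
  refine ⟨Ω, hΩo, hLc.isBounded.subset (fun x hx => hTL hx.1), ⟨_, hψ, ?_, ?_⟩,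
    fun z hz => ⟨hKT hz, lt_of_le_of_lt hz hη⟩, fun x hx => (hδW (hTL hx.1)).1⟩
  · intro M
    set L' : Set (En n) := L ∩ {x | r x ≤ η - ε / (|M| + 1)} with hL'
    have hL'c : IsCompact L' := hLc.inter_right (isClosed_le hr.continuous continuous_const)
    have hp : 0 < ε / (|M| + 1) := by positivity
    have hL'Ω : L' ⊆ Ω := by
      rintro x ⟨hx1, hx2⟩
      have hx3 : r x < η := by
        have : r x ≤ η - ε / (|M| + 1) := hx2
        linarith
      refine ⟨?_, hx3⟩
      by_contra h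
      exact absurd (hηS x ⟨hx1, h⟩) (not_le.2 hx3)
    have e : {x ∈ Ω | ε * (η - r x)⁻¹ + JB9.we_q x ≤ M} =
        L' ∩ (fun y => ε * (η - r y)⁻¹ + JB9.we_q y) ⁻¹' Iic M := by
      ext x
      constructor
      · rintro ⟨hx, hM⟩
        refine ⟨⟨hTL hx.1, ?_⟩, hM⟩
        have h1 : 0 < η - r x := sub_pos.2 hx.2
        have h2 : ε * (η - r x)⁻¹ ≤ |M| + 1 := by
          have := hq0 x
          have := le_abs_self M
          linarith
        rw [← div_eq_mul_inv, div_le_iff₀ h1] at h2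
        have h3 : ε / (|M| + 1) ≤ η - r x := by
          rw [div_le_iff₀ (by positivity)]
          linarith
        change r x ≤ η - ε / (|M| + 1)
        linarith
      · rintro ⟨hx, hM⟩
        exact ⟨hL'Ω hx, hM⟩
    rw [e]
    exact hL'c.of_isClosed_subset
      ((hψ.continuousOn.mono hL'Ω).preimage_isClosed_of_isClosed hL'c.isClosed isClosed_Iic)
      inter_subset_left
  · intro x hx a
    have h1 : ∀ t ∈ Iio η, HasDerivAt (fun t => ε * (η - t)⁻¹)
        ((fun t => ε * ((η - t) ^ 2)⁻¹) t) t := by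
      intro t ht
      have h0 : η - t ≠ 0 := (sub_pos.2 (show t < η from ht)).ne'
      have := ((((hasDerivAt_id t).const_sub η).inv h0).const_mul ε)
      refine this.congr_deriv ?_
      simp only [id]
      field_simp
    have h2 : ∀ t ∈ Iio η, HasDerivAt (fun t => ε * ((η - t) ^ 2)⁻¹)
        ((fun t => 2 * ε * ((η - t) ^ 3)⁻¹) t) t := by
      intro t ht
      have h0 : η - t ≠ 0 := (sub_pos.2 (show t < η from ht)).ne'
      have := (((((hasDerivAt_id t).const_sub η).pow 2).inv (pow_ne_zero 2 h0)).const_mul ε)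
      refine this.congr_deriv ?_
      simp only [id, Pi.pow_apply]
      field_simp
      norm_num
      ring
    rw [JB9.we_Lv_add Ω hΩo _ hs x hx a, Lv_comp_loc hr isOpen_Iio h1 h2 x hx.2 a]
    have h3 : 0 < η - r x := sub_pos.2 hx.2
    have h4 : 0 ≤ 1 / 4 * (2 * ε * ((η - r x) ^ 3)⁻¹) *
        ((fderiv ℝ r x a) ^ 2 + (fderiv ℝ r x (I • a)) ^ 2) := by positivity
    have h5 : 0 ≤ ∑ j, ‖a j‖ ^ 2 := Finset.sum_nonneg fun j _ => by positivity
    rcases (hδW (hTL hx.1)).2 with h | h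
    · have h6 := hVL x h a
      have h7 : 0 ≤ ε * ((η - r x) ^ 2)⁻¹ * Lv r x a := by positivity
      linarith
    · have h6 := hCb x (hTL hx.1) a
      have h7 : ‖a‖ ^ 2 ≤ ∑ j, ‖a j‖ ^ 2 := by
        have h8 : ‖a‖ ≤ Real.sqrt (∑ j, ‖a j‖ ^ 2) := by
          refine (pi_norm_le_iff_of_nonneg (Real.sqrt_nonneg _)).2 fun j => ?_
          apply Real.le_sqrt_of_sq_le
          exact Finset.single_le_sum (f := fun j => ‖a j‖ ^ 2) (fun j _ => by positivity)
            (Finset.mem_univ j)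
        have h9 := pow_le_pow_left₀ (norm_nonneg a) h8 2
        rwa [Real.sq_sqrt h5] at h9
      have h10 : r x < 0 := h
      have h11 : ε * ((η - r x) ^ 2)⁻¹ * C ≤ 1 := by
        have h12 : η ^ 2 ≤ (η - r x) ^ 2 := pow_le_pow_left₀ hη.le (by linarith) 2
        rw [mul_assoc, mul_comm _ C, ← mul_assoc, ← div_eq_mul_inv, div_le_one (by positivity)]
        have h13 : ε * (C + 1) = η ^ 2 := by
          rw [hε]
          field_simp
        nlinarith
      have h14 : 0 ≤ ε * ((η - r x) ^ 2)⁻¹ := by positivity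
      have h15 := mul_le_mul_of_nonneg_left h6 h14
      have h16 := mul_le_mul_of_nonneg_right h11 (sq_nonneg ‖a‖)
      nlinarith

end Pool.Agent.H367Z.NU
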